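import Pool.Agent.Q148.LadderIdx

set_option autoImplicit false

namespace Pool.Agent.Results.MP_7b4824_gt.NoSuitable

open Pool.Agent.Q148.Ladder Set

/-- The topology of the group `G^*`: a set is open when with each of its points `x` it contains
a coset `x + U_a`, where `U_a` is the set of elements vanishing at all indices below `a`. -/
@[reducible] def starTopology {ι : Type} [LinearOrder ι] [Nonempty ι] (G : ι → Type) :
    TopologicalSpace (∀ i, G i) where
  IsOpen V := ∀ x ∈ V, ∃ a : ι, ∀ y : (∀ i, G i), (∀ i < a, y i = x i) → y ∈ V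
  isOpen_univ := fun _ _ => ⟨Classical.arbitrary ι, fun _ _ => trivial⟩
  isOpen_inter := fun s t hs ht x hx => by
    obtain ⟨a, ha⟩ := hs x hx.1
    obtain ⟨b, hb⟩ := ht x hx.2
    exact ⟨max a b, fun y hy => ⟨ha y (fun i hi => hy i (lt_of_lt_of_le hi (le_max_left _ _))),
      hb y (fun i hi => hy i (lt_of_lt_of_le hi (le_max_right _ _)))⟩⟩
  isOpen_sUnion := fun s hs x hx => by
    obtain ⟨t, ht, hxt⟩ := hx
    obtain ⟨a, ha⟩ := hs t ht x hxt
    exact ⟨a, fun y hy => ⟨t, ht, ha y hy⟩⟩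

instance : Nonempty W1 := nonempty_idx regIdx_W1

/-- the topology induced on a subgroup by `starTopology` -/
@[reducible] def subTopology {ι : Type} [LinearOrder ι] [Nonempty ι] (G : ι → Type)
    [∀ i, AddGroup (G i)] (H : AddSubgroup (∀ i, G i)) : TopologicalSpace H :=
  TopologicalSpace.induced Subtype.val (starTopology G)

lemma star_basis (x : W1 → ℤ) :
    (@nhds (W1 → ℤ) (starTopology (fun _ => ℤ)) x).HasBasis
      (fun _ : W1 => True) (fun a => {y | ∀ i < a, y i = x i}) := by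
  refine ⟨fun V => Iff.trans (@mem_nhds_iff (W1 → ℤ) (starTopology (fun _ => ℤ)) x V) ?_⟩
  constructor
  · rintro ⟨W, hWV, hW, hxW⟩
    obtain ⟨a, ha⟩ := hW _ hxW
    exact ⟨a, trivial, fun y hy => hWV (ha y hy)⟩
  · rintro ⟨a, _, ha⟩
    exact ⟨_, ha, fun y hy => ⟨a, fun z hz i hi => by rw [hz i hi, hy i hi]⟩, fun i _ => rfl⟩

lemma sub_basis (x : ↥(Hs W1)) :
    (@nhds ↥(Hs W1) (subTopology (fun _ => ℤ) (Hs W1)) x).HasBasis
      (fun _ : W1 => True) (fun a => {y | ∀ i < a, (y : W1 → ℤ) i = (x : W1 → ℤ) i}) := by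
  have h4 : @nhds ↥(Hs W1) (subTopology (fun _ => ℤ) (Hs W1)) x =
      Filter.comap (Subtype.val : ↥(Hs W1) → (W1 → ℤ))
        (@nhds (W1 → ℤ) (starTopology (fun _ => ℤ)) (x : W1 → ℤ)) :=
    @nhds_induced (W1 → ℤ) ↥(Hs W1) (starTopology (fun _ => ℤ)) Subtype.val x
  rw [h4]
  exact (star_basis (x : W1 → ℤ)).comap (Subtype.val : ↥(Hs W1) → (W1 → ℤ))

/-- There is a subgroup `H` of `ℤ^{ω₁}`, all of whose elements have countable support, such that
`H` with the topology induced from `(ℤ^{ω₁})^*` is a topological group without a suitable set. -/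
theorem result :
    ∃ H : AddSubgroup (W1 → ℤ), (∀ x ∈ H, {i | x i ≠ 0}.Countable) ∧
      @IsTopologicalAddGroup H (subTopology (fun _ => ℤ) H) _ ∧
      ¬ ∃ S : Set H, @IsSuitable H _ (subTopology (fun _ => ℤ) H) S := by
  refine ⟨Hs W1, fun x hx => supp_countable hx, ?_⟩
  have heq : (subTopology (fun _ => ℤ) (Hs W1) : TopologicalSpace (LO W1)) =
      (inferInstance : TopologicalSpace (LO W1)) := by
    refine TopologicalSpace.ext_iff_nhds.2 (fun x => ?_)
    exact (sub_basis x).eq_of_same_basis (LO.basis regIdx_W1 x)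
  have hgrp : @IsTopologicalAddGroup (LO W1) (subTopology (fun _ => ℤ) (Hs W1)) _ := by
    rw [heq]
    infer_instance
  refine ⟨hgrp, ?_⟩
  rintro ⟨S, hS⟩
  have hS' : @IsSuitable (LO W1) _ (subTopology (fun _ => ℤ) (Hs W1)) S := hS
  rw [heq] at hS'
  exact LO.no_suitable regIdx_W1 S hS'

end Pool.Agent.Results.MP_7b4824_gt.NoSuitable
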